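import Pool.Agent.L0h24.QNR.Main

/-!
# MP_16d611: the Crouzeix-type bound for scaled `q`-numerical ranges

Q1 has a positive answer: for all `A ∈ M_n(ℂ)`, all `q` with `0 < |q| ≤ 1` and all polynomials `p`,
`‖p(A)‖ ≤ c(q) sup {|p(z)| : z ∈ W_q(A)/q}`, `c(q) = max (1, 2|q| / (1 + √(1 - |q|²)))`.

(For `n = 1` and `|q| < 1` there are no unit vectors `x, y` with `⟨x, y⟩ = q`; then `W_q(A)` is empty
and the `q`-numerical range is not considered.  All other cases are covered.)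

Sketch of the proof, for `|q| < 1`.  Put `r = (1 + √(1 - |q|²)) / |q|`, so that
`(r + 1/r) / 2 = 1/|q|`.
1. If `S` is positive with spectrum in `[r^(-1/2), r^(1/2)]`, then `W(S A S⁻¹)` is contained in the
  union of the discs bounded by the circles of which `W_q(A)/q` consists (the idempotents `S⁻¹PS`,
  `P` an orthogonal projection of rank one, have norm at most `(r + 1/r) / 2`).
2. Hence, by the bound with the constant `2` for ordinary numerical ranges
  (`Pool.Agent.W753.CZ.crouzeix_bound`) and by the maximum principle,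
  `‖S p(A) S⁻¹‖ ≤ 2 sup |p|`.  The choice of `S` with `S x = r^(-1/2) x`, `S y = r^(1/2) y`,
  `x ⊥ y`, gives `r |⟨p(A)x, y⟩| ≤ 2 sup |p|` for all orthonormal `x, y`.
3. If the best constant `K` were larger than `1`, then for polynomials with `‖p(A)‖` close to
  `K sup |p|` and for a unit vector `x` with `‖p(A)x‖ = ‖p(A)‖` the vectors `x` and `p(A)x` would be
  nearly orthogonal (compare `p` with `p - ε + ε̄ p²`); so `r K ≤ 2` by 2.
-/

set_option autoImplicit false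

open Polynomial

namespace Pool.Agent.Results.MP_16d611_an.QCrouzeix

/-- `ℂ^n` with the Euclidean norm. -/
abbrev Cn (n : ℕ) : Type := EuclideanSpace ℂ (Fin n)

/-- The inner product `⟨x, y⟩ = ∑ i, x i * conj (y i)`, linear in the first argument. -/
noncomputable def ip {n : ℕ} (x y : Cn n) : ℂ := ∑ i, x i * starRingEnd ℂ (y i)

/-- The matrix `A` as an operator on `ℂ^n`. -/
noncomputable def op {n : ℕ} (A : Matrix (Fin n) (Fin n) ℂ) : Cn n →L[ℂ] Cn n :=
  Matrix.toEuclideanCLM (n := Fin n) (𝕜 := ℂ) A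

/-- The `q`-numerical range `W_q(A) = {⟨Ax, y⟩ : ‖x‖ = ‖y‖ = 1, ⟨x, y⟩ = q}`. -/
def qRange {n : ℕ} (A : Matrix (Fin n) (Fin n) ℂ) (q : ℂ) : Set ℂ :=
  {w | ∃ x y : Cn n, ‖x‖ = 1 ∧ ‖y‖ = 1 ∧ ip x y = q ∧ w = ip (op A x) y}

/-- The scaled `q`-numerical range `Ω_q = W_q(A) / q`. -/
def scaledRange {n : ℕ} (A : Matrix (Fin n) (Fin n) ℂ) (q : ℂ) : Set ℂ :=
  {z | ∃ w ∈ qRange A q, z = w / q}

/-- The constant `c(q) = max (1, 2|q| / (1 + √(1 - |q|²)))`. -/
noncomputable def c (q : ℂ) : ℝ := max 1 (2 * ‖q‖ / (1 + √(1 - ‖q‖ ^ 2)))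

/-- The set of the values `|p(z)|`, `z ∈ Ω_q`. -/
def values {n : ℕ} (A : Matrix (Fin n) (Fin n) ℂ) (q : ℂ) (p : ℂ[X]) : Set ℝ :=
  {s | ∃ z ∈ scaledRange A q, s = ‖p.eval z‖}

theorem ip_eq {n : ℕ} (x y : Cn n) : ip x y = inner ℂ y x := by
  simp [ip, PiLp.inner_apply]

theorem two {n : ℕ} (hn : 2 ≤ n) : L0h24.QNR.Two (Cn n) := by
  intro x hx
  have hx0 : x ≠ 0 := by
    intro h0
    rw [h0, norm_zero] at hx
    exact zero_ne_one hx
  have h1 := Submodule.finrank_add_finrank_orthogonal (𝕜 := ℂ) (E := Cn n) (ℂ ∙ x)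
  rw [finrank_span_singleton hx0, finrank_euclideanSpace_fin] at h1
  have h2 : 0 < Module.finrank ℂ (ℂ ∙ x)ᗮ := by omega
  have := Module.finrank_pos_iff.mp h2
  obtain ⟨w, hw⟩ := exists_norm_eq ((ℂ ∙ x)ᗮ : Submodule ℂ (Cn n)) zero_le_one
  exact ⟨w, by simpa using hw, Submodule.mem_orthogonal_singleton_iff_inner_right.mp w.2⟩

theorem scaledRange_bound {n : ℕ} (A : Matrix (Fin n) (Fin n) ℂ) (q : ℂ) (p : ℂ[X]) :
    BddAbove (values A q p) := by
  have hc : IsCompact (Metric.closedBall (0 : ℂ) (‖op A‖ / ‖q‖)) := isCompact_closedBall _ _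
  have h1 := hc.bddAbove_image (f := fun z => ‖p.eval z‖) (by fun_prop)
  refine h1.mono ?_
  rintro s ⟨z, ⟨w, ⟨x, y, hx, hy, hxy, rfl⟩, rfl⟩, rfl⟩
  refine ⟨_, ?_, rfl⟩
  rw [mem_closedBall_zero_iff, norm_div]
  gcongr
  rw [ip_eq]
  calc ‖inner ℂ y (op A x)‖ ≤ ‖y‖ * ‖op A x‖ := norm_inner_le_norm _ _
    _ ≤ 1 * (‖op A‖ * 1) := by
        rw [hy, ← hx]
        gcongr
        exact (op A).le_opNorm x
    _ = ‖op A‖ := by ring

/-- **Q1**: the scaled `q`-numerical range of a complex matrix is a `c(q)`-spectral set,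
`c(q) = max (1, 2|q| / (1 + √(1 - |q|²)))`. -/
theorem result (n : ℕ) (A : Matrix (Fin n) (Fin n) ℂ) (q : ℂ) (p : ℂ[X]) (hq0 : 0 < ‖q‖)
    (hq1 : ‖q‖ ≤ 1) (hn : 2 ≤ n ∨ (n = 1 ∧ ‖q‖ = 1)) :
    (scaledRange A q).Nonempty ∧ BddAbove (values A q p) ∧
      ‖op (aeval A p)‖ ≤ c q * sSup (values A q p) := by
  have hqc : q ≠ 0 := norm_pos_iff.mp hq0
  have : NeZero n := ⟨by omega⟩
  have : Nontrivial (Cn n) := by
    infer_instance
  have hmat : op (aeval A p) = aeval (op A) p :=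
    (Polynomial.aeval_algHom_apply
      ((Matrix.toEuclideanCLM (n := Fin n) (𝕜 := ℂ)).toAlgEquiv.toAlgHom) A p).symm
  have hbdd := scaledRange_bound A q p
  have hM : ∀ z ∈ scaledRange A q, ‖p.eval z‖ ≤ sSup (values A q p) :=
    fun z hz => le_csSup hbdd ⟨z, hz, rfl⟩
  rw [hmat]
  rcases eq_or_lt_of_le hq1 with hq | hq
  · have hW : ∀ z ∈ W753.CZ.numRange (op A), z ∈ scaledRange A q := by
      rintro z ⟨x, hx, rfl⟩
      have hxx : inner ℂ x x = (1 : ℂ) := by rw [inner_self_eq_norm_sq_to_K, hx]; simp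
      refine ⟨q * inner ℂ x (op A x), ⟨x, (starRingEnd ℂ q) • x, hx, ?_, ?_, ?_⟩, ?_⟩
      · rw [norm_smul, RCLike.norm_conj, hq, hx, mul_one]
      · rw [ip_eq, inner_smul_left, Complex.conj_conj, hxx, mul_one]
      · rw [ip_eq, inner_smul_left, Complex.conj_conj]
      · field_simp
    obtain ⟨x, hx⟩ := exists_norm_eq (Cn n) zero_le_one
    refine ⟨⟨_, hW _ ⟨x, hx, rfl⟩⟩, hbdd, ?_⟩
    have hc : c q = 2 := by
      unfold c
      rw [hq]
      norm_num
    rw [hc]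
    exact W753.CZ.crouzeix_bound (op A) p _ (fun z hz => hM z (hW z hz))
  · have hn2 : 2 ≤ n := by
      rcases hn with h | h
      · exact h
      · exact absurd h.2 hq.ne
    set s : ℝ := √(1 - ‖q‖ ^ 2) with hs
    have hs2 : s ^ 2 = 1 - ‖q‖ ^ 2 := Real.sq_sqrt (by nlinarith)
    have hs0 : 0 < s := Real.sqrt_pos.mpr (by nlinarith)
    have hqc' : (‖q‖ : ℂ) ≠ 0 := by exact_mod_cast hq0.ne'
    set t : ℝ := s / ‖q‖ with ht
    have ht0 : 0 < t := by positivity
    set r : ℝ := (1 + s) / ‖q‖ with hr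
    have hr0 : 0 < r := by positivity
    have htr : ((r + r⁻¹) / 2) ^ 2 ≤ 1 + t ^ 2 := by
      have h1 : r⁻¹ = (1 - s) / ‖q‖ := by
        rw [hr, inv_div, div_eq_div_iff (by positivity) hq0.ne']
        nlinarith
      have h2 : (r + r⁻¹) / 2 = 1 / ‖q‖ := by
        rw [h1, hr]; field_simp; ring
      rw [h2, ht, div_pow, div_pow, hs2]
      apply le_of_eq
      field_simp
      ring
    have hOm : ∀ z ∈ L0h24.QNR.Om (op A) t, z ∈ scaledRange A q := by
      rintro z ⟨x, w, hx, hw, hxw, rfl⟩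
      have hxx : inner ℂ x x = (1 : ℂ) := by rw [inner_self_eq_norm_sq_to_K, hx]; simp
      have hwx : inner ℂ w x = (0 : ℂ) := by rw [← inner_conj_symm, hxw]; simp
      set y : Cn n := (starRingEnd ℂ q) • x + ((s : ℂ) * (starRingEnd ℂ q / ‖q‖)) • w with hy
      have hyv : ∀ v : Cn n, inner ℂ y v = q * inner ℂ x v + s * (q / ‖q‖) * inner ℂ w v := by
        intro v
        rw [hy, inner_add_left, inner_smul_left, inner_smul_left]
        simp only [map_mul, map_div₀, Complex.conj_conj, Complex.conj_ofReal]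
      refine ⟨inner ℂ y (op A x), ⟨x, y, hx, ?_, ?_, ?_⟩, ?_⟩
      · have h1 : ‖y‖ ^ 2 = 1 := by
          have h4 := norm_add_sq_eq_norm_sq_add_norm_sq_of_inner_eq_zero (𝕜 := ℂ)
            ((starRingEnd ℂ q) • x) (((s : ℂ) * (starRingEnd ℂ q / ‖q‖)) • w)
            (by rw [inner_smul_left, inner_smul_right, hxw]; ring)
          rw [← hy, ← sq, ← sq, ← sq] at h4
          rw [h4, norm_smul, norm_smul, hx, hw, norm_mul, norm_div, RCLike.norm_conj,
            Complex.norm_real, Complex.norm_real, norm_norm, Real.norm_of_nonneg hs0.le,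
            div_self hq0.ne', mul_one, mul_one, mul_one, hs2]
          ring
        exact (pow_eq_one_iff_of_nonneg (norm_nonneg _) two_ne_zero).mp h1
      · rw [ip_eq, hyv, hxx, hwx]; ring
      · rw [ip_eq]
      · rw [hyv, ht]
        push_cast
        field_simp
    obtain ⟨x, hx⟩ := exists_norm_eq (Cn n) zero_le_one
    obtain ⟨w, hw1, hw2⟩ := two hn2 x hx
    refine ⟨⟨_, hOm _ ⟨x, w, hx, hw1, hw2, rfl⟩⟩, hbdd, ?_⟩
    have h := L0h24.QNR.main (two hn2) (op A) ht0 hr0 htr p (fun z hz => hM z (hOm z hz))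
    have hc : c q = max 1 (2 / r) := by
      unfold c
      rw [hr, div_div_eq_mul_div]
    rw [hc]
    exact h

end Pool.Agent.Results.MP_16d611_an.QCrouzeix
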